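import Pool.Agent.Helper35.HC.StE

/-!
# Project HC, module GCE: the linear space at `q₀`
-/

set_option autoImplicit false

namespace Pool.Agent.Helper45.HC

open Helper35.HC Helper35.HSF Helper35.MS Helper35.PI Helper35.PI2 Helper32.CL
open scoped ContDiff Manifold Topology ENNReal BigOperators
open MeasureTheory Set Filter

/-- a linear isometry onto a subspace of the right dimension -/
theorem exists_iso {m N : ℕ} (W : Submodule ℝ (EE N)) (h : Module.finrank ℝ W = m) :
    ∃ L : EE m →ₗᵢ[ℝ] EE N, ∀ v ∈ W, ∃ x, L x = v := by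
  subst h
  let b := stdOrthonormalBasis ℝ W
  refine ⟨W.subtypeₗᵢ.comp b.repr.symm.toLinearIsometry, fun v hv => ⟨b.repr ⟨v, hv⟩, ?_⟩⟩
  simp

theorem mcv_orth (hNR : StNR) {n N : ℕ} (f : EE n → EE N) (x : EE n) (hLI : LI f x)
    (v : EE N) (hv : v ∈ Submodule.span ℝ (range fun i => dv1 f x i)) :
    (inner ℝ (mcv f x) v : ℝ) = 0 := by
  obtain ⟨h1, -⟩ := hNR n N f x hLI
  have h2 : ∀ i, (inner ℝ (mcv f x) (dv1 f x i) : ℝ) = 0 := by
    intro i
    unfold mcv
    rw [sum_inner]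
    refine Finset.sum_eq_zero fun a _ => ?_
    rw [sum_inner]
    refine Finset.sum_eq_zero fun b _ => ?_
    rw [real_inner_smul_left, sff, h1, mul_zero]
  induction hv using Submodule.span_induction with
  | mem y hy =>
    obtain ⟨i, rfl⟩ := hy
    exact h2 i
  | zero => exact inner_zero_right _
  | add y z _ _ hy hz => rw [inner_add_right, hy, hz, add_zero]
  | smul a y _ hy => rw [real_inner_smul_right, hy, mul_zero]

theorem hGCE (hCDG : StCDG) (hI3J : StI3J) (hNR : StNR) : StGCE := by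
  have _ := hI3J
  intro n N hn M _ _ _ J F t l ε q₀ hS
  obtain ⟨hdF, -⟩ := hCDG n N M J F hS.fl.toIsImmJ t hS.tJ q₀
  have hLI : LI (loc (n := n) F q₀ t) (chartAt (EE n) q₀ q₀) := hS.fl.imm q₀ t hS.tJ
  have hHo : ∀ v ∈ TS (n := n) F q₀ t, (inner ℝ (HH (n := n) F q₀ t) v : ℝ) = 0 :=
    fun v hv => mcv_orth hNR _ _ hLI v hv
  have hH0 : HH (n := n) F q₀ t ≠ 0 := hS.nz q₀ t hS.tJ
  have hdim : Module.finrank ℝ (TS (n := n) F q₀ t) = n := by
    unfold TS
    rw [finrank_span_eq_card hLI, Fintype.card_fin]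
  let W : Submodule ℝ (EE N) := TS (n := n) F q₀ t ⊔ Submodule.span ℝ {HH (n := n) F q₀ t}
  have hinf : TS (n := n) F q₀ t ⊓ Submodule.span ℝ {HH (n := n) F q₀ t} = ⊥ := by
    rw [Submodule.eq_bot_iff]
    intro x hx
    obtain ⟨hx1, hx2⟩ := Submodule.mem_inf.1 hx
    obtain ⟨a, rfl⟩ := Submodule.mem_span_singleton.1 hx2
    have h3 := hHo _ hx1
    rw [real_inner_smul_right, real_inner_self_eq_norm_sq] at h3
    have h4 : ‖HH (n := n) F q₀ t‖ ^ 2 ≠ 0 := pow_ne_zero 2 (norm_ne_zero_iff.2 hH0)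
    rcases mul_eq_zero.1 h3 with h5 | h5
    · rw [h5, zero_smul]
    · exact absurd h5 h4
  have hWd : Module.finrank ℝ W = n + 1 := by
    have h5 := Submodule.finrank_sup_add_finrank_inf_eq (TS (n := n) F q₀ t)
      (Submodule.span ℝ {HH (n := n) F q₀ t})
    rw [hinf, finrank_bot, add_zero, hdim, finrank_span_singleton hH0] at h5
    exact h5
  have hN : 1 ≤ N := by
    have h6 := Submodule.finrank_le W
    rw [hWd, finrank_euclideanSpace_fin] at h6
    omega
  refine ⟨hN, ?_⟩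
  obtain ⟨L, hL⟩ := exists_iso W hWd
  refine ⟨L, ?_⟩
  have hQ : ∀ (v w : EE N), w ∈ W → (inner ℝ (Qj L v) w : ℝ) = 0 := by
    intro v w hw
    obtain ⟨x, rfl⟩ := hL w hw
    unfold Qj Pj
    rw [inner_sub_left, L.inner_map_map]
    rw [ContinuousLinearMap.adjoint_inner_left]
    simp
  have hTW : ∀ v ∈ TS (n := n) F q₀ t, v ∈ W := fun v hv => Submodule.mem_sup_left hv
  have hHW : HH (n := n) F q₀ t ∈ W :=
    Submodule.mem_sup_right (Submodule.mem_span_singleton_self _)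
  unfold tlt
  refine Finset.sum_eq_zero fun i _ => ?_
  unfold gw
  have e1 : (inner ℝ (HH (n := n) F q₀ t) (Qj L (ee i)) : ℝ) = 0 := by
    rw [real_inner_comm]
    exact hQ _ _ hHW
  have e2 : gdM n F t (fun p => (inner ℝ (F p t) (Qj L (ee i)) : ℝ)) q₀ = 0 := by
    unfold gdM
    refine Finset.sum_eq_zero fun k _ => Finset.sum_eq_zero fun m _ => ?_
    have e3 : fderiv ℝ (fun y => (inner ℝ (F ((chartAt (EE n) q₀).symm y) t)
        (Qj L (ee i)) : ℝ)) (chartAt (EE n) q₀ q₀) (ee k)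
        = inner ℝ (dv1 (loc (n := n) F q₀ t) (chartAt (EE n) q₀ q₀) k) (Qj L (ee i)) := by
      rw [fderiv_inner_apply ℝ hdF (differentiableAt_const _)]
      simp only [fderiv_fun_const, Pi.zero_apply, _root_.zero_apply,
        inner_zero_right, zero_add]
      rfl
    rw [e3, real_inner_comm, hQ _ _ (hTW _ (Submodule.subset_span ⟨k, rfl⟩)), mul_zero,
      zero_smul]
  rw [e1, e2]
  simp

end Pool.Agent.Helper45.HC
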